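import Mathlib
import Pool.Agent.R924.E11

set_option autoImplicit false

/-!
# Two line bundles can generate the perfect complexes of a proper surface (MP_d96382_ag, Q1)

Over every field `k` there are a proper `k`-scheme `X` of dimension two and two line bundles
`L 0`, `L 1` on `X` such that the smallest thick subcategory of the derived category of
`O_X`-modules which contains `L 0` and `L 1` is the category of all perfect complexes. So the
statement of Q1 fails, for `d = 2`, over every field.

The surface is the first Hirzebruch surface (the projective plane blown up in a point). The example
and the proof are those of the starting file `Pool.Agent.Results.MP_e1e71f_ag.TwoSimpleLikeGenerate`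
(another question, about simple-like objects); its library `Pool.Agent.R924` proves that the two
simple-like objects are line bundles.

`IsLineBundle L`: `L` is locally isomorphic to the structure sheaf. `isPerfect X`: the objects of the
(unbounded) derived category of all `O_X`-modules which are locally isomorphic to bounded complexes of
finite locally free modules. `triangEnvelope` (Mathlib) is the smallest full subcategory which is
closed under isomorphisms, shifts, cones and direct summands, and contains the given objects.
-/

universe u

open CategoryTheory CategoryTheory.Limits AlgebraicGeometry

namespace Pool.Agent.Results.MP_d96382_ag.TwoLineBundles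

open Pool.Agent.W456 Pool.Agent.R924

attribute [local instance] HasDerivedCategory.standard

theorem result (k : Type u) [Field k] :
    ∃ (X : Scheme.{u}) (π : X ⟶ Spec (CommRingCat.of k)) (L : Fin 2 → X.Modules),
      IsProper π ∧ topologicalKrullDim X = 2 ∧ (∀ i, IsLineBundle (L i)) ∧
      (ObjectProperty.ofObj fun i =>
        (DerivedCategory.singleFunctor X.Modules 0).obj (L i)).triangEnvelope = isPerfect X :=
  ⟨F₁ k, pi₁ k, L12 k, inferInstance, dim₁ k, isLineBundle_L12 k, envelope_L12 k⟩

end Pool.Agent.Results.MP_d96382_ag.TwoLineBundles
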